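import Pool.Agent.helper82.VD.SpecH

set_option autoImplicit false

namespace Pool.Agent.VDG

open Pool.Agent.VD Pool.Agent.VDE MeasureTheory Filter Set Topology
open scoped ENNReal

/-- numbers -/
theorem PSB_e (r1 C e1 : ℝ) (hr : 0 < r1) (hC : 1 ≤ C) (he : 0 < e1) :
    ∃ e : ℝ, 0 < e ∧ e ≤ e1 ∧ e ≤ 1 ∧ 8 * C ^ 2 * e ≤ 1 ∧ 2 * C ^ 2 * e ≤ r1 := by
  have hC2 : 0 < C ^ 2 := by positivity
  refine ⟨min (min e1 1) (min (1 / (8 * C ^ 2)) (r1 / (2 * C ^ 2))), ?_, ?_, ?_, ?_, ?_⟩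
  · refine lt_min (lt_min he one_pos) (lt_min (by positivity) (by positivity))
  · exact (min_le_left _ _).trans (min_le_left _ _)
  · exact (min_le_left _ _).trans (min_le_right _ _)
  · have h : min (min e1 1) (min (1 / (8 * C ^ 2)) (r1 / (2 * C ^ 2))) ≤ 1 / (8 * C ^ 2) :=
      (min_le_right _ _).trans (min_le_left _ _)
    calc 8 * C ^ 2 * min (min e1 1) (min (1 / (8 * C ^ 2)) (r1 / (2 * C ^ 2))) ≤ 8 * C ^ 2 * (1 / (8 * C ^ 2)) :=
        mul_le_mul_of_nonneg_left h (by positivity)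
      _ = 1 := by field_simp
  · have h : min (min e1 1) (min (1 / (8 * C ^ 2)) (r1 / (2 * C ^ 2))) ≤ r1 / (2 * C ^ 2) :=
      (min_le_right _ _).trans (min_le_right _ _)
    calc 2 * C ^ 2 * min (min e1 1) (min (1 / (8 * C ^ 2)) (r1 / (2 * C ^ 2))) ≤ 2 * C ^ 2 * (r1 / (2 * C ^ 2)) :=
        mul_le_mul_of_nonneg_left h (by positivity)
      _ = r1 := by field_simp

theorem PSB_proof (hSNM : SNM_stmt) : PSB_stmt := by
  intro m r1 C e1 hr1 hC he1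
  obtain ⟨e, he0, hee1, he1', he8, her⟩ := PSB_e r1 C e1 hr1 hC he1
  have hC0 : 0 < C := by linarith
  have hC1 : C ≤ C ^ 2 := by nlinarith
  have hC2 : 1 ≤ C ^ 2 := by nlinarith
  have hC3 : C ^ 2 ≤ C ^ 3 := by nlinarith
  have hC4 : C ^ 3 ≤ C ^ 4 := by nlinarith
  refine ⟨e, 5 * C ^ 4, he0, hee1, he1', by linarith, ?_⟩
  intro Γ _ _ K F0 G Φ dd κ hG hz hkn hkl hinj
  have hhom := (hSNM (m + 1) G hG.fld.met).2.2.1
  have hfn := hG.fld.fn
  have hadd := hG.fld.flow.add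
  have hn0 : nrm G (κ 0) = 1 := hkn 0 (by rw [norm_zero]; exact he1.le)
  have hn : ∀ (a : EE m) (s : ℝ), ‖a‖ ≤ e → nrm G (Φ s (κ a)) = 1 := by
    intro a s ha
    rw [hfn, hkn a (ha.trans hee1)]
  -- distance to the centre
  have hdz : ∀ (a : EE m) (s : ℝ), ‖a‖ ≤ e → |s| ≤ e → dd (κ 0) (Φ s (κ a)) ≤ 2 * C * e := by
    intro a s ha hs
    have h1 := hG.fld.dis.tri (κ 0) (κ a) (Φ s (κ a))
    have h2 := hkl 0 a (by rw [norm_zero]; exact he1.le) (ha.trans hee1)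
    rw [zero_sub, norm_neg] at h2
    have h3 := hG.tt (κ a) s (hkn a (ha.trans hee1)) (by linarith)
    have h4 : C * ‖a‖ ≤ C * e := mul_le_mul_of_nonneg_left ha hC0.le
    have h5 : C * |s| ≤ C * e := mul_le_mul_of_nonneg_left hs hC0.le
    linarith
  have hCe : C * e ≤ C ^ 2 * e := mul_le_mul_of_nonneg_right hC1 he0.le
  have hnz : ∀ (a : EE m) (s : ℝ), ‖a‖ ≤ e → |s| ≤ e → ‖κ 0 - Φ s (κ a)‖ ≤ 2 * C ^ 2 * e := by
    intro a s ha hs
    have h1 := hdz a s ha hs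
    have h2 := hG.fld.dis.lo (κ 0) (Φ s (κ a)) hz (by rw [hn0]; norm_num) (by rw [hn a s ha]; norm_num)
      (by linarith)
    have h3 : C * dd (κ 0) (Φ s (κ a)) ≤ C * (2 * C * e) := mul_le_mul_of_nonneg_left h1 hC0.le
    calc ‖κ 0 - Φ s (κ a)‖ ≤ C * (2 * C * e) := h2.trans h3
      _ = 2 * C ^ 2 * e := by ring
  have hNr : ∀ (a : EE m) (s : ℝ), ‖a‖ ≤ e → |s| ≤ e → Nr K r1 (Φ s (κ a)) := by
    intro a s ha hs
    refine ⟨(κ 0).1, hz, ?_⟩
    have h1 := hnz a s ha hs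
    have h2 : ‖(Φ s (κ a)).1 - (κ 0).1‖ ≤ ‖κ 0 - Φ s (κ a)‖ := by
      rw [norm_sub_rev]
      exact norm_fst_le (κ 0 - Φ s (κ a))
    linarith
  refine ⟨fun a s ha hs => ⟨hNr a s ha hs, hn a s ha⟩, ?_⟩
  rintro ⟨a, s, l⟩ ⟨a', s', l'⟩ ha ha' hs hs' hl hl'
  simp only at ha ha' hs hs' hl hl'
  obtain ⟨hl1, hl2⟩ := hl
  obtain ⟨hl1', hl2'⟩ := hl'
  have hD1 : ‖a - a'‖ ≤ ‖((a, s, l) : EE m × ℝ × ℝ) - (a', s', l')‖ :=
    norm_fst_le (((a, s, l) : EE m × ℝ × ℝ) - (a', s', l'))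
  have hD23 : ‖((s, l) : ℝ × ℝ) - (s', l')‖ ≤ ‖((a, s, l) : EE m × ℝ × ℝ) - (a', s', l')‖ :=
    norm_snd_le (((a, s, l) : EE m × ℝ × ℝ) - (a', s', l'))
  have hD2 : |s - s'| ≤ ‖((a, s, l) : EE m × ℝ × ℝ) - (a', s', l')‖ :=
    (norm_fst_le (((s, l) : ℝ × ℝ) - (s', l'))).trans hD23
  have hD3 : |l - l'| ≤ ‖((a, s, l) : EE m × ℝ × ℝ) - (a', s', l')‖ :=
    (norm_snd_le (((s, l) : ℝ × ℝ) - (s', l'))).trans hD23
  have hDmax : ∀ B : ℝ, ‖a - a'‖ ≤ B → |s - s'| ≤ B → |l - l'| ≤ B →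
      ‖((a, s, l) : EE m × ℝ × ℝ) - (a', s', l')‖ ≤ B := by
    intro B h1 h2 h3
    exact max_le h1 (max_le h2 h3)
  obtain ⟨D, hD⟩ : ∃ D : ℝ, D = ‖((a, s, l) : EE m × ℝ × ℝ) - (a', s', l')‖ := ⟨_, rfl⟩
  rw [← hD] at hD1 hD2 hD3 hDmax ⊢
  have hD0 : 0 ≤ D := (norm_nonneg _).trans hD1
  -- the two points
  obtain ⟨p, hp⟩ : ∃ p, p = Φ s (κ a) := ⟨_, rfl⟩
  obtain ⟨p', hp'⟩ : ∃ p', p' = Φ s' (κ a') := ⟨_, rfl⟩
  have hpn : nrm G p = 1 := by rw [hp]; exact hn a s ha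
  have hpn' : nrm G p' = 1 := by rw [hp']; exact hn a' s' ha'
  have hpN : Nr K r1 p := by rw [hp]; exact hNr a s ha hs
  have hpN' : Nr K r1 p' := by rw [hp']; exact hNr a' s' ha' hs'
  have hξ' : ‖p'.2‖ ≤ C := by
    have := hG.nno p' hpN'
    rwa [hpn', mul_one] at this
  have hpp : ‖p - p'‖ ≤ 1 := by
    have h1 := hnz a s ha hs
    have h2 := hnz a' s' ha' hs'
    rw [← hp] at h1
    rw [← hp'] at h2
    have h3 : ‖p - p'‖ ≤ ‖κ 0 - p'‖ + ‖κ 0 - p‖ := by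
      have : p - p' = (κ 0 - p') - (κ 0 - p) := by abel
      rw [this]; exact norm_sub_le _ _
    linarith
  have hd : dd p p' ≤ 1 / 2 := by
    have h1 := hdz a s ha hs
    have h2 := hdz a' s' ha' hs'
    rw [← hp] at h1
    rw [← hp'] at h2
    have h3 := hG.fld.dis.tri p (κ 0) p'
    rw [hG.fld.dis.symm p (κ 0)] at h3
    linarith
  have hPsi : Psi Φ κ (a, s, l) = (p.1, l • p.2) := by rw [hp]; rfl
  have hPsi' : Psi Φ κ (a', s', l') = (p'.1, l' • p'.2) := by rw [hp']; rfl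
  rw [hPsi, hPsi']
  constructor
  · -- upper
    have h1 : dd p p' ≤ 2 * C ^ 2 * D := by
      have t1 := hG.fld.dis.tri p (Φ s (κ a')) p'
      have t2 := hG.lp (κ a) (κ a') s (hkn a (ha.trans hee1)) (hkn a' (ha'.trans hee1)) (by linarith)
      have t3 := hkl a a' (ha.trans hee1) (ha'.trans hee1)
      have t4 := hG.tt (Φ s (κ a')) (s' - s) (hn a' s ha') (by
        have := abs_sub s' s
        linarith)
      rw [← hadd, sub_add_cancel, ← hp'] at t4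
      rw [← hp] at t2
      have t5 : C * dd (κ a) (κ a') ≤ C * (C * D) := by
        refine mul_le_mul_of_nonneg_left (t3.trans ?_) hC0.le
        exact mul_le_mul_of_nonneg_left hD1 hC0.le
      have t6 : C * |s' - s| ≤ C * D := by
        refine mul_le_mul_of_nonneg_left ?_ hC0.le
        rw [abs_sub_comm]; exact hD2
      have t7 : C * D ≤ C ^ 2 * D := mul_le_mul_of_nonneg_right hC1 hD0
      nlinarith
    have h2 : ‖p - p'‖ ≤ 2 * C ^ 3 * D := by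
      have := hG.nlo p p' hpN hpN' (by rw [hpn]; norm_num) (by rw [hpn']; norm_num) hd
      calc ‖p - p'‖ ≤ C * dd p p' := this
        _ ≤ C * (2 * C ^ 2 * D) := mul_le_mul_of_nonneg_left h1 hC0.le
        _ = 2 * C ^ 3 * D := by ring
    have h3 : ‖p.1 - p'.1‖ ≤ ‖p - p'‖ := norm_fst_le (p - p')
    have h4 : ‖p.2 - p'.2‖ ≤ ‖p - p'‖ := norm_snd_le (p - p')
    have hC3D : C ^ 3 * D ≤ C ^ 4 * D := mul_le_mul_of_nonneg_right hC4 hD0
    have hC1D : C * D ≤ C ^ 4 * D := mul_le_mul_of_nonneg_right (by linarith) hD0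
    have hC0D : 0 ≤ C ^ 4 * D := by positivity
    have h5 : ‖l • p.2 - l' • p'.2‖ ≤ 5 * C ^ 4 * D := by
      have e1 : l • p.2 - l' • p'.2 = l • (p.2 - p'.2) + (l - l') • p'.2 := by
        rw [smul_sub, sub_smul]; abel
      rw [e1]
      have e2 := norm_add_le (l • (p.2 - p'.2)) ((l - l') • p'.2)
      rw [norm_smul, norm_smul, Real.norm_eq_abs, Real.norm_eq_abs, abs_of_pos (by linarith : (0 : ℝ) < l)] at e2
      have e3 : l * ‖p.2 - p'.2‖ ≤ 2 * (2 * C ^ 3 * D) :=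
        mul_le_mul hl2 (h4.trans h2) (norm_nonneg _) (by norm_num)
      have e4 : |l - l'| * ‖p'.2‖ ≤ D * C := mul_le_mul hD3 hξ' (norm_nonneg _) hD0
      nlinarith
    show ‖((p.1 - p'.1, l • p.2 - l' • p'.2) : P (m + 1))‖ ≤ _
    rw [Prod.norm_mk]
    refine max_le ?_ h5
    have := h3.trans h2
    nlinarith
  · -- lower
    obtain ⟨E, hE⟩ : ∃ E : ℝ, E = ‖((p.1, l • p.2) : P (m + 1)) - (p'.1, l' • p'.2)‖ := ⟨_, rfl⟩
    have hE0 : 0 ≤ E := by rw [hE]; exact norm_nonneg _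
    have hE1 : ‖p.1 - p'.1‖ ≤ E := by
      rw [hE]; exact norm_fst_le (((p.1, l • p.2) : P (m + 1)) - (p'.1, l' • p'.2))
    have hE2 : ‖l • p.2 - l' • p'.2‖ ≤ E := by
      rw [hE]; exact norm_snd_le (((p.1, l • p.2) : P (m + 1)) - (p'.1, l' • p'.2))
    have hnl : nrm G ((p.1, l • p.2) : P (m + 1)) = l := by
      rw [hhom, abs_of_pos (by linarith : (0 : ℝ) < l)]
      show l * nrm G p = l
      rw [hpn, mul_one]
    have hnl' : nrm G ((p'.1, l' • p'.2) : P (m + 1)) = l' := by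
      rw [hhom, abs_of_pos (by linarith : (0 : ℝ) < l')]
      show l' * nrm G p' = l'
      rw [hpn', mul_one]
    have h1 : |l - l'| ≤ C * E := by
      have := hG.nnl ((p.1, l • p.2) : P (m + 1)) (p'.1, l' • p'.2) hpN hpN' (by rw [hnl]; exact hl1)
        (by rw [hnl]; exact hl2) (by rw [hnl']; exact hl1') (by rw [hnl']; exact hl2')
      rwa [hnl, hnl', ← hE] at this
    have h2 : ‖p.2 - p'.2‖ ≤ (1 + C ^ 2) * E := by
      have e1 : l • (p.2 - p'.2) = (l • p.2 - l' • p'.2) + (l' - l) • p'.2 := by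
        rw [smul_sub, sub_smul]; abel
      have e2 := norm_add_le (l • p.2 - l' • p'.2) ((l' - l) • p'.2)
      rw [← e1, norm_smul, norm_smul, Real.norm_eq_abs, Real.norm_eq_abs,
        abs_of_pos (by linarith : (0 : ℝ) < l), abs_sub_comm] at e2
      have e3 : |l - l'| * ‖p'.2‖ ≤ (C * E) * C := mul_le_mul h1 hξ' (norm_nonneg _) (by positivity)
      have e4 : ‖p.2 - p'.2‖ ≤ l * ‖p.2 - p'.2‖ := by
        nlinarith [norm_nonneg (p.2 - p'.2)]
      nlinarith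
    have h3 : ‖p - p'‖ ≤ (1 + C ^ 2) * E := by
      refine max_le ?_ h2
      show ‖p.1 - p'.1‖ ≤ _
      nlinarith [mul_nonneg (by positivity : (0 : ℝ) ≤ C ^ 2) hE0]
    have h4 := hG.nup p p' hpN hpN' (by rw [hpn]; norm_num) (by rw [hpn']; norm_num) hpp
    have h5 := hinj a a' s s' (ha.trans hee1) (ha'.trans hee1) (hs.trans hee1) (hs'.trans hee1)
    rw [← hp, ← hp'] at h5
    have h6 : C * dd p p' ≤ 2 * C ^ 4 * E := by
      calc C * dd p p' ≤ C * (C * ((1 + C ^ 2) * E)) :=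
            mul_le_mul_of_nonneg_left (h4.trans (mul_le_mul_of_nonneg_left h3 hC0.le)) hC0.le
        _ = (C ^ 2 + C ^ 4) * E := by ring
        _ ≤ 2 * C ^ 4 * E := by
          refine mul_le_mul_of_nonneg_right ?_ hE0
          linarith
    have h7 : 0 ≤ C ^ 4 * E := by positivity
    have h8 : C * E ≤ C ^ 4 * E := mul_le_mul_of_nonneg_right (by linarith) hE0
    rw [← hE]
    refine hDmax _ ?_ ?_ ?_
    · have := abs_nonneg (s - s')
      linarith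
    · have := norm_nonneg (a - a')
      linarith
    · linarith

end Pool.Agent.VDG
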